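import Pool.Agent.N126.RC.CanV

/-!
MP_79ab39_ag, Q1: Vojta's inequality for the canonical degrees of the curves on the abelian coverings
of generic complete intersections in arbitrary varieties `V`.

Let `K` be an algebraically closed field of characteristic `0` (for example the complex numbers), and
let `k` be a field contained in `K`, with algebraic closure `k'` in `K`. Let `V` be the closed subset
of the projective `n`-space with the equations `f_i = 0`, `i ∈ I`, over `k'`, of degrees `v_i`, and
suppose that its dimension is at most `m` (all of the projective space is allowed: then there are no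
equations, and `m = n`). Let `F_a`, for `a` in a finite set `A`, be generic forms of degrees `d_a`
(`Generic`: the ratios of their coefficients are algebraically independent over `k`), let `C` be a
subset of `A`, and let `q_a ≥ 1`, for `a ∉ C`, be divisors of the `d_a`. Let `X` be the projective
variety (`fullEq`)

`f_i (x) = 0`, `i ∈ I`, `F_a (x) = 0`, `a ∈ C`, `u_a ^ {q_a} = F_a (x)`, `a ∉ C`,

in the weighted projective space with the coordinates `x_0, …, x_n` of weight `1` and `u_a`, `a ∉ C`,
of weight `d_a / q_a` (`coverWt`). It is a covering of the generic complete intersection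
`V ∩ {F_a = 0, a ∈ C}` with the group `∏ ℤ / q_a`, ramified over the sections `F_a = 0`, `a ∉ C`. It is
smooth if `V` is smooth (Bertini). Let `S` be the sum of the `d_a`, `a ∈ C`, and of the
`d_a (1 - 1 / q_a)`, `a ∉ C`. Suppose that `S + |C| > 2 m`, and `S + ∑ v_i ≥ n + 1`. Then

(1) `K_X · f ≤ ((S + ∑ v_i - n - 1) / (S + |C| - 2 m)) (2 g - 2)` for all nonconstant maps `f` from
    smooth projective curves of genus `g` to `X`;

(2) in particular, if `S + 2 |C| ≥ 4 m - n - 1 + ∑ v_i`, then `K_X · f ≤ 2 (2 g - 2) = 4 (g - 1)`.

So for each smooth `V`, Vojta's inequality holds, with `4` in place of `4 + ε` and `B = 0`, for all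
curves on all smooth surfaces `X` of this type (of all families of degrees `d_a` and orders `q_a`), if
`S + 2 |C|` is at least a constant which depends only on `V`. The factor in (1) tends to `1` for
`S → ∞`, and it cannot be less than `1` in the limit (there are curves with ratios tending to `1`, see
the problem file). If `V` is the projective `n`-space and `X` is a surface, so that `|C| = n - 2`,
then `K_X` is `S - n - 1` times the hyperplane class, the factor in (1) is
`(S - n - 1) / (S - n - 2)`, and (2) holds if `S ≥ n + 3`, that is, if `K_X - 2 H` is nef.

The curve has the function field `L`, and `f` is given by the coordinates `z` with `z (inl c) = 1` for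
some `c`. The cone over `X` in the affine space is smooth outside of `0`, if `X` is a smooth
`w`-dimensional scheme; its tangent bundle has the rank `w + 1`, and descends to an extension of the
tangent bundle of `X` by a trivial line bundle, which is a subbundle of the direct sum of the line
bundles `O(weight of s)`, where `s` runs through the coordinates. So `K_X · f` is minus the degree of
the determinant of this bundle, and this is the number `canX`, for any basis `u` (over `L`) of the
tangent space at `z` of the cone (`TangentBasis`).
-/

set_option autoImplicit false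

namespace Pool.Agent.Results.MP_79ab39_ag.AbelianCoverings

open MvPolynomial Pool.Agent.N126.RC Pool.Agent.TH145.MG

theorem result {k K : Type} [Field k] [Field K] [IsAlgClosed K] [CharZero K] [Algebra k K]
    {n m : ℕ}
    -- a closed subset of projective space, of dimension at most `m`
    {I : Type} [Fintype I] (f : I → MvPolynomial (Fin (n + 1)) (algebraicClosure k K)) (v : I → ℕ)
    (hf : ∀ i, (f i).IsHomogeneous (v i)) (hV : DimLE (algebraicClosure k K) (Set.range f) m)
    -- generic forms
    {A : Type} [Fintype A] [DecidableEq A] (d : A → ℕ) (F : A → MvPolynomial (Fin (n + 1)) K)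
    (hF : Generic k d F)
    -- the orders of the ramification
    (C : Finset A) (q : A → ℕ) (hq0 : ∀ a, a ∉ C → q a ≠ 0) (hq : ∀ a, a ∉ C → q a ∣ d a)
    -- the numerical conditions
    (S : ℚ) (hS : S = ∑ a ∈ C, (d a : ℚ) + ∑ a ∈ Cᶜ, (d a : ℚ) * (1 - 1 / q a))
    (hS1 : (2 * m : ℚ) < S + C.card) (hS2 : (n + 1 : ℚ) ≤ S + ∑ i, (v i : ℚ))
    -- the dimension of `X` (for surfaces `2`)
    (w : ℕ) :
    CanonicalGenusBound (coverWt d q C) (fullEq f F C q) w
      ((S + ∑ i, (v i : ℚ) - n - 1) / (S + C.card - 2 * m)) ∧
    (S + ∑ i, (v i : ℚ) - n - 1 ≤ 2 * (S + C.card - 2 * m) →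
      CanonicalGenusBound (coverWt d q C) (fullEq f F C q) w 2) :=
  vojta_full f v hf hV F hF C hq0 hq hS hS1 hS2 w

end Pool.Agent.Results.MP_79ab39_ag.AbelianCoverings
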